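import Pool.Agent.MP_ca1109_lc.Ovm.FL
import Pool.Agent.MP_ca1109_lc.Ovm.PR
import Pool.Agent.MP_ca1109_lc.Ovr.OV2

/-!
# Logarithmic seeds against search trees with programs and gates over overlapping unordered blocks

`LMTest c r B k D h n T`: the cube `{0, 1} ^ n` is partitioned into any number of subcubes of average
codimension at most `h ⌈log₂ n⌉` (for instance, the leaves of a decision tree with single bit queries
of this average depth), and on each of them the Boolean function `T` agrees with a function of one of
two kinds.

* `LTest B k`: an arbitrary function of `k` read-once programs which read the bits in one order and `k`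
  read-once programs which read the bits in another order (`LProg B k`), with any numbers of states.
  The programs of one order read the same different bits in the same arbitrary order, one bit per
  step: at the step `t` the bit `π t`, whatever the states are (the step may be trivial for some of
  them). For each program and every `B` consecutive steps there are values of their `B` bits which
  lead the program to one of two states, from any state. For instance, the program has three states,
  and among any `B` consecutive steps one is not reversible (for a value of its bit, its transition is
  not a permutation of the states).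
* `MTree`: a search tree over its own family of blocks `I j` (`j < q`, `q` is arbitrary) of at most
  `c log n` bits each (`2 ^ (size) ≤ n ^ c`). The blocks may overlap (`Over r I`): every bit is in at
  most `r` blocks, and two bits which are together in two different blocks are in the same blocks. The
  second condition holds for all families if `r = 2` (part 2), and it holds if two blocks share at
  most one bit (part 3).

A search tree has `D` rounds. In each round it asks single bits, by a decision tree of depth at most
`c log n`, and then it searches the blocks in an arbitrary order for the first block whose content has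
an arbitrary property, and learns this block and its content. At the end it answers by an arbitrary
Boolean function of `k` gates (`MGate`). A gate is
* a branching program with at most `B` states which reads the blocks in an arbitrary order (each gate
  in its own order, which does not depend on the states), one block per step, by a transition which is
  an arbitrary function of the content of the block, if all transitions are in a monoid `S` of maps of
  the states which is in DO and whose subgroups are commutative (`DOA`:
  `e b c e = e b e c e = e c b e` for all idempotents `e` in `S b S` and in `S c S`);
* or the question whether a sum of arbitrary functions of the blocks with values in any abelian group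
  lies in a set of at most `B` elements;
* or the question whether a sum of arbitrary functions of the blocks with integer values in `[-B, B]`
  is at least `θ`.

For two states `S` may be the monoid of all maps (part 4). There is such a monoid `S` if any two
transitions which are not constant commute, or if the states can be ranked so that a transition which
changes the state increases the rank (part 5). A product, in an arbitrary order of the blocks, of
functions of the blocks with values in a monoid of at most `B` elements with `DOA` is a gate (part 6).

In particular, `T` may be a Boolean function of `k` programs of width two, each of which reads the `q`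
blocks, of at most `c log n` bits, in its own order; every bit is read up to `r` times.

`LogGen 𝒯 ε`: there is a generator with logarithmic seeds, computable in polynomial time, which fools
all tests in `𝒯 n` with error at most `ε` for all large `n`.
(`c`, `r`, `B`, `k`, `D`, `h` and `ε` are constants; everything else, in particular the subcubes, the
blocks, the orders, the monoids and all functions, may depend on `n` and is not known to the
generator.)

Definitions: `Pool/Agent/MP_ca1109_lc/Ovm/TestL.lean` (`LMTest`),
`Pool/Agent/MP_ca1109_lc/Ovm/TestM.lean` (`MGate`, `MTree`), `Pool/Agent/MP_ca1109_lc/Ovm/Defs.lean`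
(`DOA`), `Pool/Agent/MP_ca1109_lc/Wd/Test3.lean` (`LProg`, `LTest`),
`Pool/Agent/MP_ca1109_lc/Wd/Test2.lean` (`steps`), `Pool/Agent/MP_ca1109_lc/Ovr/Test.lean` (`Search`,
`run`), `Pool/Agent/MP_ca1109_lc/Ov/GT.lean` (`Over`, `OnBlocks`), `Pool/Agent/MP_ca1109_lc/Rf/Test.lean`
(`DTree`, `Const`), `Pool/Agent/MP_ca1109_lc/Mpg/G0.lean`,
`Pool/Agent/MP_ca1109_lc/{Circuit,MonoStep}.lean`; the class of polynomial-time functions is defined in
`Pool/Agent/Lib/helper66/Basic.lean`.
-/

namespace Pool.Agent.Results.MP_ca1109_lc.OverlappingPrograms

open Pool.Agent.MP_ca1109_lc Pool.Agent.MP_ca1109_lc.Mpg Pool.Agent.MP_ca1109_lc.Ov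
  Pool.Agent.MP_ca1109_lc.Ovr Pool.Agent.MP_ca1109_lc.Ovm

theorem result (c r B k D h : ℕ) (ε : ℝ) (hε : 0 < ε) :
    LogGen (LMTest c r B k D h) ε ∧
    (∀ (n q : ℕ) (I : Fin q → Finset (Fin n)),
      (∀ i, (Finset.univ.filter fun j => i ∈ I j).card ≤ 2) → Over 2 I) ∧
    (∀ (n q : ℕ) (I : Fin q → Finset (Fin n)),
      (∀ i, (Finset.univ.filter fun j => i ∈ I j).card ≤ r) →
      (∀ j j', j ≠ j' → (I j ∩ I j').card ≤ 1) → Over r I) ∧
    DOA (⊤ : Submonoid (Function.End Bool)) ∧
    (∀ (Q : Type) (T : Set (Function.End Q)),
      (∀ f ∈ T, ∀ g ∈ T, Rf.Const f ∨ Rf.Const g ∨ ∀ s, f (g s) = g (f s)) ∨
      (∃ ρ : Q → ℕ, ∀ f ∈ T, ∀ s, f s = s ∨ ρ s < ρ (f s)) →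
      ∃ S : Submonoid (Function.End Q), T ⊆ S ∧ DOA S) ∧
    ∀ (n q : ℕ) (I : Fin q → Finset (Fin n)) (M : Type) (_ : Monoid M) (_ : Fintype M)
      (π : Equiv.Perm (Fin q)) (a : Fin q → (Fin n → Bool) → M) (A : Set M)
      (g : (Fin n → Bool) → Bool), Fintype.card M ≤ B → DOA M → OnBlocks I a →
      (∀ x, g x = true ↔ ((List.finRange q).map fun i => a (π i) x).prod ∈ A) → MGate B I g :=
  ⟨lmfinal c r B k D h hε, fun _ _ _ => over_two, fun _ _ _ => over_inter, doa_two,
    fun _ _ hc => t3_mon hc, fun _ _ _ _ _ _ π a A _ hM hA ha hg => mgate_prod hM hA π a A ha hg⟩

end Pool.Agent.Results.MP_ca1109_lc.OverlappingPrograms
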