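import Pool.Agent.MP_ca1109_lc.Post.P12

/-!
# Logarithmic-seed generators against circuits over an arbitrary basis: a complete classification

`Basis`: finitely many Boolean functions of arbitrary arities (by Post's theorem every clone of
Boolean functions is generated by such a basis).
`BTest B s m T`: the function `T` of `m` bits is computed by a circuit with at most `s` gates, all
of them from the basis `B`; `BAny B m T`: the same without a bound on the number of gates.
`tau B`, the threshold of `B`: it is `0` if all functions of `B` are affine, or all are
conjunctions, or all are disjunctions, or all are self-dual; otherwise it is `1/4`, `1/2` or `1` if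
both, one or none of the following holds: (a) all functions of `B` are intersecting (any two
accepted points have a common coordinate `1`) or all are co-intersecting; (b) all are monotone or all
are idempotent (`f (0, ..., 0) = 0` and `f (1, ..., 1) = 1`).
`LogGen 𝒯 e`: there is a generator with logarithmic seeds, computable in polynomial time, which
fools all tests in `𝒯 m` with error at most `e` for all large `m`; `GenExists (fun _ _ => True) (1 / 8)`:
the generator of the question, for all circuits with AND, OR and NOT gates of size at most `m`.
At an error at least `tau B` there is a generator which fools the circuits over `B` of any size; at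
every error below `tau B` a generator against the circuits over `B` of size at most `m ^ (1 / k)`, or
at most `m ^ k`, exists if and only if the generator of the question exists.
Definitions: `Pool/Agent/MP_ca1109_lc/Post/Defs.lean`, `Pool/Agent/MP_ca1109_lc/Mpg/G0.lean`,
`Pool/Agent/MP_ca1109_lc/{Circuit,MonoStep,MonoThreshold}.lean`; the class of polynomial-time
functions is defined in `Pool/Agent/Lib/helper66/Basic.lean`.
-/

namespace Pool.Agent.Results.MP_ca1109_lc.PostDichotomy

open Pool.Agent.MP_ca1109_lc Pool.Agent.MP_ca1109_lc.Mpg Pool.Agent.MP_ca1109_lc.Post

theorem result (B : Basis) (e : ℝ) (he : 0 < e) :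
    (tau B ≤ e → LogGen (BAny B) e) ∧
    (e < tau B → ∀ k : ℕ, 0 < k →
      (LogGen (fun m T => ∃ s, s ^ k ≤ m ∧ BTest B s m T) e ↔
        GenExists (fun _ _ => True) (1 / 8)) ∧
      (LogGen (fun m T => BTest B (m ^ k) m T) e ↔ GenExists (fun _ _ => True) (1 / 8))) :=
  dichotomy B e he

end Pool.Agent.Results.MP_ca1109_lc.PostDichotomy
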