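import Pool.Agent.MP_ca1109_lc.Nb.MN
import Pool.Agent.MP_ca1109_lc.Nb.FN

/-!
# Logarithmic independence fools functions of read-bounded threshold gates on partitions of logarithmic
# average codimension; strings which fool polynomials of degree at most `d`, and sums of `d` strings of
# small bias, fool these functions after maps of degree at most `d`

`SmallBias D δ p`: `p` is a probability distribution on the cube, each nonempty parity of at most `D`
bits is odd and even with probabilities (under `p`) which differ by at most `δ`. For `D = n` these are
all parities; for `δ = 0`, `p` is `D`-wise independent.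
`Thr r V W L g`: `g` is a threshold gate with arbitrary real weights over a list of conjunctions of
literals of any length and any widths; at most `V` of them, each with more than `W` literals in
variables not in `L`, are exempt, and every variable occurs in at most `r` of the others.
`Lin B g`: `g` tests whether the vector of any number of arbitrary parities of `x` is one of at most
`B` given vectors (for `B = 0`, `g` is the constant `false`).
`GateTest r B k V W L f`: `f` is an arbitrary Boolean function of `k` such gates.
`AvgPart P D f`: the cube is partitioned into any number of subcubes of average codimension at most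
`D` (for instance, the leaves of a decision tree of average depth at most `D`), on each of which `f`
agrees with a function of the class `P` (of its own).
`PartTest r B k h n f`: `AvgPart` of `GateTest` for `D = h ⌈log₂ n⌉`, `V = n ^ h`,
`W = (h + 1) ⌈log₂ n⌉`.
`aff ℓ b`: the affine map over the field with two elements with linear parts `ℓ` and constants `b`.
`SbTest r B k h n f`: `f` is the composition of an affine bijection with a function in `PartTest`.
`Deg d q`: `q` is a polynomial of degree at most `d` over the field with two elements.
`FoolsDeg d δ p`: `p` is a probability distribution on the cube which fools all polynomials of degree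
at most `d` over the field with two elements with error at most `δ`.
`xs x`: the sum modulo two of the strings `x 0, …, x (d - 1)`.
`SmallOn β q Q`: on the set where all `q i` are true, each nonempty parity of the `Q i` is odd and even
with probabilities (of a uniform point of the cube, in the set) which differ by at most `β`.
`PolyTest r B k h d β n f`: the cube is partitioned into any number of sets, each of which is given by
`c` polynomials `q i` of degree at most `d`, where the average of `c` at a uniform point is at most
`h ⌈log₂ n⌉`; on each set `f` is a function in `SbTest r B k h` of the values of at most `n ^ (h + 1)`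
polynomials `Q i` of degree at most `d` with `SmallOn β q Q`.
`LogGen 𝒯 ε`: there is a generator with logarithmic seeds, computable in polynomial time, which fools
all tests in `𝒯 n` with error at most `ε` for all large `n`.
(`r`, `B`, `k`, `h`, `d` and `ε` are constants.)

Definitions: `Pool/Agent/MP_ca1109_lc/Nb/Test.lean`, `Pool/Agent/MP_ca1109_lc/Xs/Test.lean`,
`Pool/Agent/MP_ca1109_lc/Xu/Test.lean` (`litSum`), `Pool/Agent/MP_ca1109_lc/Mpg/G0.lean`,
`Pool/Agent/MP_ca1109_lc/{Circuit,MonoStep}.lean`; the class of polynomial-time functions is defined
in `Pool/Agent/Lib/helper66/Basic.lean`.
-/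

namespace Pool.Agent.Results.MP_ca1109_lc.SmallBias

open Pool.Agent.MP_ca1109_lc Pool.Agent.MP_ca1109_lc.Mpg Pool.Agent.MP_ca1109_lc.Xs
  Pool.Agent.MP_ca1109_lc.Nb

theorem result (r B k h d : ℕ) (ε : ℝ) (hε : 0 < ε) :
    ∃ C : ℕ, (∀ (n : ℕ) (δ : ℝ), δ * ((n : ℝ) + 1) ^ C ≤ 1 →
      (∀ p : (Fin n → Bool) → ℝ,
        (SmallBias (C * Nat.clog 2 (n + 1)) δ p → ∀ f : (Fin n → Bool) → Bool,
          PartTest r 0 k h n f → |(∑ x, if f x = true then p x else 0) - prob f| ≤ ε) ∧
        (FoolsDeg d δ p → ∀ f : (Fin n → Bool) → Bool,
          PolyTest r B k h d δ n f → |(∑ x, if f x = true then p x else 0) - prob f| ≤ ε)) ∧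
      ∀ p : Fin d → (Fin n → Bool) → ℝ, (∀ j, SmallBias n δ (p j)) →
        ∀ f : (Fin n → Bool) → Bool, PolyTest r B k h d δ n f →
          |(∑ x : Fin d → Fin n → Bool, if f (xs x) = true then ∏ j, p j (x j) else 0) -
            prob f| ≤ ε) ∧
      LogGen (fun n => PolyTest r B k h d (1 / ((n : ℝ) + 1) ^ C) n) ε :=
  final_nb r B k h d hε

end Pool.Agent.Results.MP_ca1109_lc.SmallBias
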