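import Pool.Agent.MP_ca1109_lc.Xr.WF

/-!
# Logarithmic seeds against functions which are functions of gates on the subcubes of a partition

`GateW q d r B V W L g`: the Boolean function `g` of `n` bits is given by a gate over a list of
conjunctions of literals of any length and any widths; at most `V` of them, each with more than `W`
literals in variables not in `L`, are exempt, and every variable occurs in at most `r` of the others.
The gate is of one of three kinds:
* the sum of the real weights of the true conjunctions is at least a threshold (disjunctions,
  majorities, halfspaces, polynomial threshold functions of any degree);
* the sum of the coefficients of the true conjunctions, in any abelian group, finite or infinite, lies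
  in a set of at most `B` elements (exact thresholds, counts modulo any number, systems of any number
  of linear equations over any field);
* the same in an abelian group which is killed by `q`, where the conjunctions of at most `d` literals
  whose coefficients are killed by `2 ^ q`, that is, are of 2-power order, are not counted for the
  bound `r` either (polynomials of any degree over the field with two elements, with arbitrary part of
  degree at most `d`).
`GateTestW q d r B k h n L f`: `f` is an arbitrary Boolean function of `k` such gates with `V = n ^ h`
and `W = (h + 1) ⌈log₂ n⌉`.
`AvgTest q d r B k h n f`: the cube is partitioned into any number of subcubes, whose average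
codimension (that of the subcube of a random point) is at most `h ⌈log₂ n⌉`, on each of which `f`
agrees with a function (of its own) in `GateTestW`, where `L` is the set of the variables which are
fixed on the subcube. For instance, `f` is computed by a decision tree of average depth at most
`h ⌈log₂ n⌉`, or by one with at most `n ^ h` leaves, with functions of `k` gates at the leaves.
`LogGen 𝒯 ε`: there is a generator with logarithmic seeds, computable in polynomial time, which fools
all tests in `𝒯 n` with error at most `ε` for all large `n`.
(`q`, `d`, `r`, `B`, `k`, `h` and `ε` are constants.)

Definitions: `Pool/Agent/MP_ca1109_lc/Xr/TestW.lean`, `Pool/Agent/MP_ca1109_lc/Xu/Test.lean`,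
`Pool/Agent/MP_ca1109_lc/Mpg/G0.lean`, `Pool/Agent/MP_ca1109_lc/{Circuit,MonoStep}.lean`; the class of
polynomial-time functions is defined in `Pool/Agent/Lib/helper66/Basic.lean`.
-/

namespace Pool.Agent.Results.MP_ca1109_lc.TermGates

open Pool.Agent.MP_ca1109_lc.Mpg Pool.Agent.MP_ca1109_lc.Xr

theorem result (q d r B k h : ℕ) (hq : 0 < q) (ε : ℝ) (hε : 0 < ε) :
    LogGen (AvgTest q d r B k h) ε :=
  Pool.Agent.MP_ca1109_lc.Xr.final_avg q d r B k h hq hε

end Pool.Agent.Results.MP_ca1109_lc.TermGates
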